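import Pool.Agent.ANO5.A3.Grp.Basic

/-!
# ANO5, module Grp: compactness modulo the centralizer (package GRP-CPT)

`T₀ = g ∘ G₀`, `Z = Cent S T₀`. `K` compact with `Deck S • K = X` (`cocompact`). Let
`dist x (T₀ x) ≤ R`, `a x ∈ K`, `a ∈ Deck S`, `G₀ ∘ a = a' ∘ G₀` (`Normal`). Then
`a (T₀ x) = a g a'⁻¹ (G₀ (a x)) = c (G₀ (a x))`, `c = a * g * a'⁻¹ ∈ Deck S`, and
`dist (a x) (c (G₀ (a x))) ≤ R`: `c` maps a point of the compact set `G₀ '' K` into the closed
`R`-neighbourhood of `K`, so it belongs to a finite set `Y` (`Action.proper` for the compact set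
`G₀ '' K ∪ cthickening R K`; `X r` is proper). For each `c ∈ Y` which occurs fix one `a_c ∈ Deck
S k`
(and `a_c'`) with `c = a_c * g * a_c'⁻¹`, `G₀ ∘ a_c = a_c' ∘ G₀`. If `a` gives the same `c` then
`b = a_c⁻¹ * a` satisfies `b * g = g * (a_c'⁻¹ * a')` and `G₀ ∘ b = (a_c'⁻¹ * a') ∘ G₀`, so
`b ∈ Z`, and `b x = a_c⁻¹ (a x) ∈ a_c⁻¹ K`. So `L = ⋃_{c ∈ Y} a_c⁻¹ K` (finite union of compact
sets).

`finite_fixOrb`: the fixed points of `T₀` in `L` are isolated (nondegenerate: inverse function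
theorem,
as in `A2.EqIdx.Fin`: see the lemmas there) and form a compact set, so they are finitely many, and
each orbit of fixed points meets `L`.
-/

set_option autoImplicit false
set_option linter.unusedSectionVars false

open Set Filter Topology
open scoped UpperHalfPlane MatrixGroups

namespace Pool.Agent.ANO5.A3.Grp

variable [Fib]

open Pool.Agent.ANO5.A1 Pool.Agent.ANO5.A2 Pool.Agent.ANO5.A2.EqIdx

variable {r : ℕ} {S : Fin r → ClosedSurface}

theorem cpt {G₀ : A1.X r → A1.X r} (h₀ : Continuous G₀) (hn : Normal S G₀)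
    {g : Equiv.Perm (A1.X r)} (hg : g ∈ Deck S) (R : ℝ) :
    ∃ L, IsCompact L ∧ ∀ x, dist x (g (G₀ x)) ≤ R → x ∈ sat (Cent S (g ∘ G₀)) L := by
  classical
  obtain ⟨K, hK, hKc⟩ := cocompact S
  -- the pairs `a, a'` which give `c`
  set Q : (A1.X r → A1.X r) → Equiv.Perm (A1.X r) × Equiv.Perm (A1.X r) → Prop :=
    fun c a => a.1 ∈ Deck S ∧ a.2 ∈ Deck S ∧ (∀ p, G₀ (a.1 p) = a.2 (G₀ p)) ∧
      ∀ p, c (a.2 p) = a.1 (g p) with hQ
  set M : Set (A1.X r) := G₀ '' K ∪ Metric.cthickening R K with hM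
  have hMc : IsCompact M := (hK.image h₀).union hK.cthickening
  set Y : Set (A1.X r → A1.X r) := {c | IsDeck S c ∧ ∃ p ∈ M, c p ∈ M} with hY
  have hYf : Y.Finite := Dyn.deck_finite hMc
  let A : (A1.X r → A1.X r) → Equiv.Perm (A1.X r) × Equiv.Perm (A1.X r) := fun c =>
    if h : ∃ a, Q c a then h.choose else 1
  have hA : ∀ c, (∃ a, Q c a) → Q c (A c) := by
    intro c h
    change Q c (if h : ∃ a, Q c a then h.choose else 1)
    rw [dif_pos h]
    exact h.choose_spec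
  set Y' : Set (A1.X r → A1.X r) := {c | c ∈ Y ∧ ∃ a, Q c a} with hY'
  have hY'f : Y'.Finite := hYf.subset fun c hc => hc.1
  refine ⟨⋃ c ∈ Y', (fun x => (A c).1⁻¹ x) '' K, hY'f.isCompact_biUnion fun c hc => ?_, ?_⟩
  · have h1 : (A c).1⁻¹ ∈ Deck S := inv_mem (hA c hc.2).1
    exact hK.image (Dyn.IsDeck.isometry (h1 : IsDeck S _)).continuous
  · intro x hx
    obtain ⟨a, ha, hax⟩ := hKc x
    obtain ⟨a', ha', haa⟩ := hn a ha
    have hcmem : a * g * a'⁻¹ ∈ Deck S := mul_mem (mul_mem ha hg) (inv_mem ha')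
    set c : A1.X r → A1.X r := ((a * g * a'⁻¹ : Equiv.Perm (A1.X r)) :
      A1.X r → A1.X r) with hc
    have hca : ∀ p, c (a' p) = a (g p) := by
      intro p
      exact congrArg (fun q => a (g q)) (Equiv.symm_apply_apply a' p)
    have hQc : Q c (a, a') := ⟨ha, ha', haa, hca⟩
    have hcd : IsDeck S c := hcmem
    have hcY : c ∈ Y' := by
      refine ⟨⟨hcd, G₀ (a x), Or.inl ⟨a x, hax, rfl⟩, Or.inr ?_⟩, ⟨(a, a'), hQc⟩⟩
      rw [haa, hca]
      refine Metric.mem_cthickening_of_dist_le _ _ _ _ hax ?_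
      rw [(Dyn.IsDeck.isometry (ha : IsDeck S _)).dist_eq, dist_comm]
      exact hx
    obtain ⟨h1, h2, h3, h4⟩ := hA c hcY.2
    set b : Equiv.Perm (A1.X r) := (A c).1⁻¹ * a with hb
    have hbx : ∀ p, (A c).1 (b p) = a p := by
      intro p
      exact Equiv.apply_symm_apply (A c).1 (a p)
    have hbC : b ∈ Cent S (g ∘ G₀) := by
      refine ⟨mul_mem (inv_mem h1) ha, fun p => ?_⟩
      apply (A c).1.injective
      change (A c).1 (g (G₀ (b p))) = (A c).1 (b (g (G₀ p)))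
      rw [hbx, ← h4, ← h3, hbx, haa, hca]
    refine ⟨⟨b, hbC⟩, mem_iUnion₂.2 ⟨c, hcY, a x, hax, ?_⟩⟩
    rfl

theorem finite_fixOrb {G₀ : A1.X r → A1.X r} (h₀ : Continuous G₀) (hn : Normal S G₀)
    {g : Equiv.Perm (A1.X r)} (hg : g ∈ Deck S) (hnd : Nondeg (g ∘ G₀)) :
    (fixOrb (Cent S (g ∘ G₀)) (g ∘ G₀)).Finite := by
  obtain ⟨L, hL, hLx⟩ := cpt h₀ hn hg 0
  set T : A1.X r → A1.X r := g ∘ G₀ with hT
  have hTc : Continuous T :=
    (Dyn.IsDeck.isometry (hg : IsDeck S _)).continuous.comp h₀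
  have hFc : IsCompact (L ∩ {q | T q = q}) :=
    hL.inter_right (isClosed_eq hTc continuous_id)
  set V : Set (A1.E r) := {x | ∀ᶠ y in 𝓝 x, ContDiffAt ℝ 1 (loc T) y} with hV
  have hVo : IsOpen V := isOpen_setOfPred_eventually_nhds
  have hVd : ContDiffOn ℝ 1 (fun x => x - loc T x) V := by
    intro x hx
    exact (contDiffAt_id.sub (Filter.Eventually.self_of_nhds hx)).contDiffWithinAt
  have hUV : toE '' (L ∩ {q | T q = q}) ⊆ V := by
    rintro x ⟨q, ⟨-, hq⟩, rfl⟩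
    obtain ⟨⟨W, hW, hW'⟩, -⟩ := hnd q hq
    change ∀ᶠ y in 𝓝 (toE q), ContDiffAt ℝ 1 (loc T) y
    filter_upwards [eventually_mem_nhds_iff.2 hW] with y hy
    exact hW'.contDiffAt hy
  have hz : ∀ q : A1.X r, T q = q → toE q - loc T (toE q) = 0 := by
    intro q hq
    change toE q - toE (T (ofE (toE q))) = 0
    rw [Idx.ofE_toE, hq, sub_self]
  have hreg : Pool.Agent.ANO.Idx.Reg (fun x => x - loc T x) (toE '' (L ∩ {q | T q = q})) := by
    rintro x ⟨q, ⟨-, hq⟩, rfl⟩ -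
    exact (hnd q hq).2
  have h1 := Pool.Agent.ANO.Idx.finite_zeros (hFc.image Idx.continuous_toE) hVo hUV hVd hreg
  have h2 : (L ∩ {q | T q = q}).Finite := by
    have hinj : Function.Injective (toE : A1.X r → A1.E r) := fun a b h => by
      rw [← Idx.ofE_toE a, ← Idx.ofE_toE b, h]
    refine Set.Finite.of_finite_image (f := toE) (h1.subset ?_) hinj.injOn
    rintro x ⟨q, hq, rfl⟩
    exact ⟨mem_image_of_mem _ hq, hz q hq.2⟩
  refine (h2.image (fun q => MulAction.orbit (Cent S T) q)).subset ?_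
  rintro o ⟨q, hq, rfl⟩
  have hq' : T q = q := hq
  obtain ⟨z, hzL⟩ := hLx q (by
    change dist q (T q) ≤ 0
    rw [hq', dist_self])
  refine ⟨z • q, ⟨hzL, ?_⟩, MulAction.orbit_smul z q⟩
  change T ((z : Equiv.Perm (A1.X r)) q) = (z : Equiv.Perm (A1.X r)) q
  rw [z.2.2 q, hq']

end Pool.Agent.ANO5.A3.Grp
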