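import Pool.Agent.ANO5.A3.Grp.Cpt
import Pool.Agent.ANO5.A2.Idx.Sgn
import Pool.Agent.ANO5.A2.EqIdx.Main

/-!
# ANO5, module Grp: the index of a lift (package GRP-INDEX)

`encard_le`: `A2.EqIdx.encard_fixOrb_le` for the chart `chartX r`, `Z = Cent S (g ∘ G₀)`
(`action`,
`cent_le`), `G = g ∘ F ^ M` (equivariant by `comm_of_comm`; `C¹`: `A2.Idx.contDiffOn_T`; fixed
points
nondegenerate of one sign: `A2.Idx.exists_sign`), `G₀ := g ∘ G₀` (`Idx.near`, `g` is an isometry;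
`cpt`;
`finite_fixOrb`; `Nondeg`). If `E r` is trivial the statement is clear.
`no_fix`: the right side is `0`.
-/

set_option autoImplicit false
set_option linter.unusedSectionVars false

open Set Filter Topology
open scoped UpperHalfPlane MatrixGroups

namespace Pool.Agent.ANO5.A3.Grp

variable [Fib]

open Pool.Agent.ANO5.A1 Pool.Agent.ANO5.A2 Pool.Agent.ANO5.A2.EqIdx

variable {r : ℕ} {S : Fin r → ClosedSurface} {F : A1.X r ≃ₜ A1.X r}

private theorem subsingleton_Index (h : ¬ Nontrivial (A1.E r)) : Subsingleton (A1.X r) := by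
  have h1 : Subsingleton (A1.E r) := not_nontrivial_iff_subsingleton.1 h
  exact ⟨fun a b => by
    rw [← A1.Idx.ofE_toE a, ← A1.Idx.ofE_toE b, Subsingleton.elim (toE a) (toE b)]⟩

private theorem near_Index {M : ℕ} {G₀ : A1.X r → A1.X r}
    (h₀ : Continuous G₀) (h : Homotopic S G₀ (F ^ M : A1.X r ≃ₜ A1.X r))
    {g : Equiv.Perm (A1.X r)} (hg : g ∈ Deck S) :
    ∃ c : ℝ, ∀ x, dist ((g ∘ (F ^ M : A1.X r ≃ₜ A1.X r)) x) ((g ∘ G₀) x) ≤ c := by
  obtain ⟨C, hC⟩ := A2.Idx.near h h₀ (F ^ M).continuous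
  refine ⟨C, fun p => ?_⟩
  show dist (g ((F ^ M) p)) (g (G₀ p)) ≤ C
  rw [A2.Idx.deck_dist (S := S) hg]
  exact hC p

theorem encard_le (hF : IsAnosovLift S F) {M : ℕ} (hM : 0 < M) {G₀ : A1.X r → A1.X r}
    (h₀ : Continuous G₀) (h : Homotopic S G₀ (F ^ M : A1.X r ≃ₜ A1.X r))
    {g : Equiv.Perm (A1.X r)} (hg : g ∈ Deck S) (hnd : Nondeg (g ∘ G₀)) :
    (fixOrb (Cent S (g ∘ G₀)) (g ∘ (F ^ M : A1.X r ≃ₜ A1.X r))).encard ≤
      (fixOrb (Cent S (g ∘ G₀)) (g ∘ G₀)).encard := by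
  by_cases hrk : Nontrivial (A1.E r)
  swap
  · have := subsingleton_Index hrk
    refine encard_le_encard ?_
    rintro _ ⟨q, -, rfl⟩
    exact ⟨q, Subsingleton.elim _ _, rfl⟩
  have hn := (normal_of_homotopic h).1
  obtain ⟨σ, hσ, hs⟩ := A2.Idx.exists_sign hF hM (g := g) hg
  obtain ⟨c, hc⟩ := near_Index h₀ h hg
  refine encard_fixOrb_le (C := chartX r) (Z := Cent S (g ∘ G₀)) (action (cent_le S _))
    ⟨?_, ?_⟩ ?_ hσ ?_ ?_ ?_ hc ?_ ?_ ?_
  · rw [chartX_loc, chartX_dom]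
    exact A2.Idx.contDiffOn_T hF M hg
  · intro z x
    exact comm_of_comm h hg z.2 x
  · intro q _ hq
    exact (hs q hq).1
  · intro q hq
    exact (hs q hq).2
  · exact (A2.Idx.deck_continuous (S := S) hg).comp h₀
  · intro z x
    exact z.2.2 x
  · intro R
    exact cpt h₀ hn hg R
  · exact finite_fixOrb h₀ hn hg hnd
  · intro w hw
    exact hnd w hw

/-- if the lift of the model has no fixed point then the lift of the Anosov map has none -/
theorem no_fix (hF : IsAnosovLift S F) {M : ℕ} (hM : 0 < M) {G₀ : A1.X r → A1.X r}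
    (h₀ : Continuous G₀) (h : Homotopic S G₀ (F ^ M : A1.X r ≃ₜ A1.X r))
    {g : Equiv.Perm (A1.X r)} (hg : g ∈ Deck S) (h1 : ∀ p, g (G₀ p) ≠ p)
    (p : A1.X r) : g ((F ^ M) p) ≠ p := by
  intro hp
  have h2 := encard_le hF hM h₀ h hg (fun w hw => (h1 w hw).elim)
  have h3 : fixOrb (Cent S (g ∘ G₀)) (g ∘ G₀) = ∅ := by
    rw [fixOrb, image_eq_empty]
    exact eq_empty_of_forall_notMem h1
  rw [h3, encard_empty, nonpos_iff_eq_zero, encard_eq_zero] at h2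
  have h4 : MulAction.orbit (Cent S (g ∘ G₀)) p ∈
      fixOrb (Cent S (g ∘ G₀)) (g ∘ (F ^ M : A1.X r ≃ₜ A1.X r)) := ⟨p, hp, rfl⟩
  rw [h2] at h4
  exact h4

end Pool.Agent.ANO5.A3.Grp
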